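import Pool.Agent.H7.LD.Stmts

/-!
# Row PHI0 of the board gu8: weights of a clique (copy of H14/GT/PHI)
-/

set_option autoImplicit false

open Finset

namespace Pool.LD7

open Pool.Agent.H23.KT Pool.Agent.H46.KW Pool.KQ Pool.GT7 Pool.GU7 Pool.HZ7 Pool.IA7

private lemma PHI8_arith {q n M r y : ℕ} (hr : r < q) (h : y + q * n = q * M + r) : r ≤ y := by
  by_contra hcon
  push Not at hcon
  rcases Nat.lt_or_ge M n with h1 | h1
  · have h2 : q * (M + 1) ≤ q * n := Nat.mul_le_mul_left _ h1
    rw [Nat.mul_add, Nat.mul_one] at h2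
    omega
  · have h2 : q * n ≤ q * M := Nat.mul_le_mul_left _ h1
    omega

private lemma PHI8_min {ι : Type*} (s : Finset ι) (r : ℝ) (w : ι → ℝ) (hr : 0 ≤ r)
    (hw : ∀ i ∈ s, 0 ≤ w i) : min r (∑ i ∈ s, w i) ≤ ∑ i ∈ s, min r (w i) := by
  classical
  induction s using Finset.induction_on with
  | empty => simp [hr]
  | insert i s hi ih =>
    rw [sum_insert hi, sum_insert hi]
    have h1 := ih (fun j hj => hw j (mem_insert_of_mem hj))
    have h2 := hw i (mem_insert_self _ _)
    have h3 : 0 ≤ ∑ j ∈ s, w j := sum_nonneg (fun j hj => hw j (mem_insert_of_mem hj))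
    refine le_trans ?_ (add_le_add_right h1 _)
    rcases le_total r (w i) with h4 | h4
    · rw [min_eq_left h4]
      have h5 : 0 ≤ min r (∑ j ∈ s, w j) := le_min hr h3
      linarith [min_le_left r (w i + ∑ j ∈ s, w j)]
    · rw [min_eq_right h4]
      rcases le_total r (∑ j ∈ s, w j) with h5 | h5
      · rw [min_eq_left h5]
        linarith [min_le_left r (w i + ∑ j ∈ s, w j)]
      · rw [min_eq_right h5]
        exact min_le_right _ _

private lemma PHI8_gg_nonneg (p r q : ℕ) (hr : r ≤ p + 1) (hq : q ≤ p + 3) : 0 ≤ gg p r q := by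
  unfold gg
  split_ifs with h
  · norm_num
  · have h1 : (q : ℝ) ≤ p + 3 := by exact_mod_cast hq
    have h2 : (r : ℝ) ≤ p + 1 := by exact_mod_cast hr
    apply div_nonneg
    · apply mul_nonneg (Nat.cast_nonneg r)
      linarith
    · apply mul_nonneg _ (Nat.cast_nonneg q)
      linarith

private lemma PHI8_num (p r x P D n1 M : ℕ) (hr : r ≤ p + 1) (hr1 : 1 ≤ r)
    (h : x + P + (p + 3) * n1 = (p + 3) * M + r + D) :
    (r : ℝ) ≤ x + P + r / ((p : ℝ) + 3 - r) * D := by
  by_contra hcon
  push Not at hcon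
  have h2 : (r : ℝ) ≤ p + 1 := by exact_mod_cast hr
  have h3 : (0 : ℝ) < (p : ℝ) + 3 - r := by linarith
  have hr0 : (0 : ℝ) < r := by exact_mod_cast hr1
  have h4 : 0 ≤ (r : ℝ) / ((p : ℝ) + 3 - r) * D := by positivity
  have hx : (0 : ℝ) ≤ x := Nat.cast_nonneg _
  have hP : (0 : ℝ) ≤ P := Nat.cast_nonneg _
  have h5 : (r : ℝ) / ((p : ℝ) + 3 - r) * D < r := by linarith
  have h6 : (D : ℝ) < (p : ℝ) + 3 - r := by
    rw [div_mul_eq_mul_div, div_lt_iff₀ h3] at h5
    exact lt_of_mul_lt_mul_left h5 hr0.le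
  have h7 : D + r < p + 3 := by
    have h8 : ((D + r : ℕ) : ℝ) < ((p + 3 : ℕ) : ℝ) := by
      push_cast
      linarith
    exact_mod_cast h8
  have h9 : x + P < r := by
    have h8 : ((x + P : ℕ) : ℝ) < (r : ℝ) := by
      push_cast
      linarith
    exact_mod_cast h8
  have h10 := PHI8_arith (q := p + 3) (n := n1) (M := M) (r := r + D) (y := x + P) (by omega)
    (by omega)
  omega

theorem PHI0_thm : PHI0Stmt := by
  intro V _ _ G p w r a hprm hCB hdeg K hK
  classical
  have hrp := hprm.rp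
  have hr1 := hprm.r1
  rw [mem_clq] at hK
  obtain ⟨-, hKc, hKq⟩ := hK
  -- at most `p + 3` neighbours
  have hi : ∀ z, (nb G K z).card ≤ p + 3 := by
    intro z
    by_contra hcon
    have h1 : nb G K z ⊆ K := nb_subset G K z
    have h2 : (nb G K z).card ≤ K.card := card_le_card h1
    have h3 : (nb G K z).card = p + 4 := by omega
    have h4 : nb G K z = K := eq_of_subset_of_card_le h1 (by omega)
    have hall : ∀ y ∈ K, G.Adj z y := by
      intro y hy
      rw [← h4] at hy
      exact ((mem_nb G).1 hy).2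
    have hz : z ∉ K := fun hz => G.loopless.irrefl z (hall z hz)
    have h5 := hCB (insert z K) (subset_univ _) (by
      rw [coe_insert, SimpleGraph.isClique_insert]
      exact ⟨hKq, fun y hy _ => hall y (mem_coe.1 hy)⟩)
    rw [card_insert_of_notMem hz] at h5
    omega
  have hq : ∀ v ∈ K, ∀ z, G.Adj v z → (nb G (K.erase v) z).card + 1 = (nb G K z).card := by
    intro v hv z hadj
    have h3 : nb G (K.erase v) z = (nb G K z).erase v := by
      ext y
      simp only [mem_nb, mem_erase, and_assoc]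
    have h4 : v ∈ nb G K z := (mem_nb G).2 ⟨hv, hadj.symm⟩
    rw [h3, card_erase_of_mem h4]
    have h5 : 0 < (nb G K z).card := card_pos.2 ⟨v, h4⟩
    omega
  have hsw : ∑ v ∈ K, ∑ z ∈ nb G univ v, gg p r ((nb G (K.erase v) z).card + 1)
      = ∑ z : V, ((nb G K z).card : ℝ) * gg p r (nb G K z).card := by
    have h1 : ∀ v ∈ K, ∑ z ∈ nb G univ v, gg p r ((nb G (K.erase v) z).card + 1)
        = ∑ z : V, if G.Adj v z then gg p r (nb G K z).card else 0 := by
      intro v hv
      rw [← sum_filter]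
      have h2 : nb G univ v = univ.filter (fun z => G.Adj v z) := by
        ext z
        simp only [mem_nb, mem_filter]
      rw [h2]
      apply sum_congr rfl
      intro z hz
      rw [hq v hv z (mem_filter.1 hz).2]
    rw [sum_congr rfl h1, sum_comm]
    apply sum_congr rfl
    intro z _
    rw [← sum_filter, sum_const, nsmul_eq_mul]
    have h2 : K.filter (fun v => G.Adj v z) = nb G K z := by
      ext v
      simp only [mem_filter, mem_nb]
      rw [G.adj_comm]
    rw [h2]
  have hdsum : ∑ v ∈ K, (nb G univ v).card = ∑ z : V, (nb G K z).card := by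
    have h1 : ∀ v ∈ K, (nb G univ v).card = ∑ z : V, if G.Adj v z then 1 else 0 := by
      intro v _
      rw [← card_filter]
      congr 1
    rw [sum_congr rfl h1, sum_comm]
    apply sum_congr rfl
    intro z _
    rw [← card_filter]
    have h2 : K.filter (fun v => G.Adj v z) = nb G K z := by
      ext v
      simp only [mem_filter, mem_nb]
      rw [G.adj_comm]
    rw [h2]
  obtain ⟨n1, hn1⟩ : ∃ n1, n1 = ∑ z : V, (if r < (nb G K z).card then 1 else 0 : ℕ) := ⟨_, rfl⟩
  obtain ⟨D, hD⟩ : ∃ D, D = ∑ z : V, (if r < (nb G K z).card then p + 3 - (nb G K z).card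
    else 0 : ℕ) := ⟨_, rfl⟩
  obtain ⟨P, hP⟩ : ∃ P, P = ∑ z : V, (if r < (nb G K z).card then 0 else (nb G K z).card : ℕ) :=
    ⟨_, rfl⟩
  have hA : ∑ z : V, (nb G K z).card + D = P + (p + 3) * n1 := by
    rw [hn1, hD, hP, mul_sum, ← sum_add_distrib, ← sum_add_distrib]
    apply sum_congr rfl
    intro z _
    have := hi z
    split_ifs
    · omega
    · omega
  have h3 : (0 : ℝ) < (p : ℝ) + 3 - r := by
    have h2 : (r : ℝ) ≤ p + 1 := by exact_mod_cast hrp
    linarith
  have hB : ∑ z : V, ((nb G K z).card : ℝ) * gg p r (nb G K z).card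
      = P + r / ((p : ℝ) + 3 - r) * D := by
    rw [hD, hP]
    push_cast
    rw [mul_sum, ← sum_add_distrib]
    apply sum_congr rfl
    intro z _
    have h4 := hi z
    unfold gg
    rcases Nat.lt_or_ge r (nb G K z).card with h1 | h1
    · rw [if_neg (by omega), if_pos h1, if_pos h1, Nat.cast_sub h4]
      have h5 : ((nb G K z).card : ℝ) ≠ 0 := by
        have h6 : 0 < (nb G K z).card := by omega
        exact_mod_cast h6.ne'
      push_cast
      field_simp
      ring
    · rw [if_pos h1, if_neg (by omega), if_neg (by omega)]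
      ring
  -- the integer `x`
  have hle : ∑ v ∈ K, (nb G univ v).card ≤ (p + 4) * ((p + 3) * a + r) := by
    have h1 := sum_le_card_nsmul K (fun v => (nb G univ v).card) _ (fun v _ => hdeg v)
    rw [hKc, smul_eq_mul] at h1
    exact h1
  obtain ⟨x, hx⟩ : ∃ x, (p + 4) * ((p + 3) * a + r) = ∑ v ∈ K, (nb G univ v).card + x :=
    ⟨_, (Nat.add_sub_cancel' hle).symm⟩
  have hx2 : x + P + (p + 3) * n1 = (p + 3) * ((p + 4) * a + r) + r + D := by
    have h1 : (p + 4) * ((p + 3) * a + r) = (p + 3) * ((p + 4) * a + r) + r := by ring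
    rw [hdsum] at hx
    omega
  have hT : ∑ v ∈ K, XX G p r a (nb G univ v) (K.erase v)
      = x + P + r / ((p : ℝ) + 3 - r) * D := by
    unfold XX
    rw [sum_add_distrib, sum_sub_distrib, hsw, hB, sum_const, hKc, nsmul_eq_mul, ← Nat.cast_sum]
    have h1 : (((p + 4 : ℕ) : ℝ)) * (((p + 3) * a + r : ℕ) : ℝ)
        = ((∑ v ∈ K, (nb G univ v).card : ℕ) : ℝ) + x := by
      exact_mod_cast hx
    rw [h1]
    ring
  have hTr := PHI8_num p r x P D n1 ((p + 4) * a + r) hrp hr1 hx2
  have hpos : ∀ v ∈ K, (0 : ℝ) ≤ XX G p r a (nb G univ v) (K.erase v) := by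
    intro v hv
    unfold XX
    have h1 : ((nb G univ v).card : ℝ) ≤ (((p + 3) * a + r : ℕ) : ℝ) := by
      exact_mod_cast hdeg v
    have h2 : 0 ≤ ∑ z ∈ nb G univ v, gg p r ((nb G (K.erase v) z).card + 1) := by
      apply sum_nonneg
      intro z hz
      rw [hq v hv z ((mem_nb G).1 hz).2]
      exact PHI8_gg_nonneg p r _ hrp (hi z)
    linarith
  have h1 := PHI8_min K (r : ℝ) _ (Nat.cast_nonneg r) hpos
  refine le_trans ?_ h1
  rw [hT]
  exact le_min le_rfl hTr

end Pool.LD7
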